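import Pool.Agent.H66.L.S8.H721R2.Embed

/-!
# Invariant submanifolds of hyperbolic systems contain stable and unstable directions
-/

set_option autoImplicit false
set_option linter.unusedSectionVars false

open Set Filter Topology Metric

namespace Pool.Agent.R189.IS

open Pool.Agent.H721R2

variable {X E : Type*} [MetricSpace X] [NormedAddCommGroup E] [NormedSpace ℝ E]

/-- An invariant set `Z` of a hyperbolic system, with a decomposition into `C¹` submanifolds (the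
points with the same label `q`) with tangent spaces `T`. -/
structure Sub {B : Type*} (S : HypSys X E) (Z : Set X) (q : X → B) (T : X → Submodule ℝ E) :
    Prop where
  inv : ∀ x, S.g x ∈ Z ↔ x ∈ Z
  lab : ∀ x y, q (S.g x) = q (S.g y) ↔ q x = q y
  le : ∀ x ∈ Z, T x ≤ S.Vs x ⊔ S.Vu x
  mapT : ∀ x ∈ Z, ∀ v ∈ T x, S.D x v ∈ T (S.g x)
  mapT' : ∀ x ∈ Z, ∀ v ∈ T x, S.D' x v ∈ T (S.g.symm x)
  diff : ∀ η > 0, ∃ r > 0, ∀ x ∈ Z, ∀ y ∈ Z, q x = q y → dist x y < r →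
    ∃ v ∈ T x, ‖S.e y - S.e x - v‖ ≤ η * dist x y
  cont : ∀ η > 0, ∃ r > 0, ∀ x ∈ Z, ∀ y ∈ Z, dist x y < r →
    ∀ v ∈ T x, ∃ v' ∈ T y, ‖v - v'‖ ≤ η * ‖v‖

theorem Sub.inv' {B : Type*} {S : HypSys X E} {Z : Set X} {q : X → B} {T : X → Submodule ℝ E}
    (h : Sub S Z q T) (x : X) :
    S.g.symm x ∈ Z ↔ x ∈ Z := by
  rw [← h.inv, S.g.apply_symm_apply]

theorem Sub.lab' {B : Type*} {S : HypSys X E} {Z : Set X} {q : X → B} {T : X → Submodule ℝ E}
    (h : Sub S Z q T) (x y : X) : q (S.g.symm x) = q (S.g.symm y) ↔ q x = q y := by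
  rw [← h.lab, S.g.apply_symm_apply, S.g.apply_symm_apply]

theorem Sub.lab_iter {B : Type*} {S : HypSys X E} {Z : Set X} {q : X → B} {T : X → Submodule ℝ E}
    (h : Sub S Z q T) (n : ℕ) (x y : X) : q (S.g^[n] x) = q (S.g^[n] y) ↔ q x = q y := by
  induction n with
  | zero => exact Iff.rfl
  | succ n ih => rw [Function.iterate_succ_apply', Function.iterate_succ_apply', h.lab, ih]

theorem Sub.lab_iter' {B : Type*} {S : HypSys X E} {Z : Set X} {q : X → B} {T : X → Submodule ℝ E}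
    (h : Sub S Z q T) (n : ℕ) (x y : X) :
    q (S.g.symm^[n] x) = q (S.g.symm^[n] y) ↔ q x = q y := by
  induction n with
  | zero => exact Iff.rfl
  | succ n ih => rw [Function.iterate_succ_apply', Function.iterate_succ_apply', h.lab', ih]

theorem Sub.inv_iter {B : Type*} {S : HypSys X E} {Z : Set X} {q : X → B} {T : X → Submodule ℝ E}
    (h : Sub S Z q T) (n : ℕ) (x : X) : S.g^[n] x ∈ Z ↔ x ∈ Z := by
  induction n with
  | zero => exact Iff.rfl
  | succ n ih => rw [Function.iterate_succ_apply', h.inv, ih]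

theorem Sub.inv_iter' {B : Type*} {S : HypSys X E} {Z : Set X} {q : X → B} {T : X → Submodule ℝ E}
    (h : Sub S Z q T) (n : ℕ) (x : X) : S.g.symm^[n] x ∈ Z ↔ x ∈ Z := by
  induction n with
  | zero => exact Iff.rfl
  | succ n ih => rw [Function.iterate_succ_apply', h.inv', ih]

theorem Sub.symm {B : Type*} {S : HypSys X E} {Z : Set X} {q : X → B} {T : X → Submodule ℝ E}
    (h : Sub S Z q T) : Sub S.symm Z q T where
  inv := fun x => h.inv' x
  lab := h.lab'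
  le := fun x hx => by
    have := h.le x hx
    rwa [sup_comm] at this
  mapT := h.mapT'
  mapT' := h.mapT
  diff := h.diff
  cont := h.cont

/-- the tangent space lies in the unstable cone of size `κ` -/
def Cone (S : HypSys X E) (T : X → Submodule ℝ E) (κ : ℝ) (x : X) : Prop :=
  ∀ s ∈ S.Vs x, ∀ u ∈ S.Vu x, s + u ∈ T x → ‖s‖ ≤ κ * ‖u‖

variable {B : Type*} {S : HypSys X E} {Z : Set X} {q : X → B} {T : X → Submodule ℝ E}

theorem a_le (S : HypSys X E) : S.a ≤ 1 / 16 := by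
  have h1 := S.Ka
  have h2 := S.one_le_K
  have h3 := S.a_nonneg
  nlinarith

theorem b_le (S : HypSys X E) : S.b ≤ 1 / 16 := by
  have h1 := S.Kb
  have h2 := S.one_le_K
  have h3 := S.b_nonneg
  nlinarith

theorem cone_step (h : Sub S Z q T) {κ : ℝ} (hκ : 0 ≤ κ) {x : X} (hx : x ∈ Z)
    (hc : Cone S T κ (S.g.symm x)) : Cone S T (κ * (1 / 256)) x := by
  intro s hs u hu hsu
  have h1 := h.mapT' x hx _ hsu
  rw [map_add] at h1
  have h2 := hc _ (S.mapS' x s hs) _ (S.mapU' x u hu) h1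
  have h3 := S.contrS _ _ (S.mapS' x s hs)
  rw [S.invS' x s hs] at h3
  have h4 := S.contrU _ _ hu
  have ha := S.a_nonneg
  have hb := S.b_nonneg
  calc ‖s‖ ≤ S.a * ‖S.D' x s‖ := h3
    _ ≤ S.a * (κ * ‖S.D' x u‖) := mul_le_mul_of_nonneg_left h2 ha
    _ ≤ S.a * (κ * (S.b * ‖u‖)) := by gcongr
    _ = κ * (S.a * S.b) * ‖u‖ := by ring
    _ ≤ κ * (1 / 256) * ‖u‖ := by
        have h5 : S.a * S.b ≤ 1 / 256 := by
          have := mul_le_mul (a_le S) (b_le S) hb (by norm_num : (0:ℝ) ≤ 1 / 16)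
          linarith
        gcongr

theorem cone_iter (h : Sub S Z q T) {κ : ℝ} (hκ : 0 ≤ κ) (n : ℕ) {x : X} (hx : x ∈ Z)
    (hc : Cone S T κ (S.g.symm^[n] x)) : Cone S T (κ * (1 / 256) ^ n) x := by
  induction n generalizing x with
  | zero => simpa using hc
  | succ n ih =>
    rw [Function.iterate_succ_apply] at hc
    have h1 := ih ((h.inv' x).mpr hx) hc
    have h2 := cone_step h (by positivity) hx h1
    rw [pow_succ, ← mul_assoc]
    exact h2

theorem cone0_back (h : Sub S Z q T) {y : X} (hy : y ∈ Z) (hc : Cone S T 0 (S.g y)) :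
    Cone S T 0 y := by
  intro s hs u hu hsu
  have h1 := h.mapT y hy _ hsu
  rw [map_add] at h1
  have h2 := hc _ (S.mapS y s hs) _ (S.mapU y u hu) h1
  rw [zero_mul] at h2 ⊢
  have h3 : S.D y s = 0 := norm_le_zero_iff.mp h2
  have h4 := S.invS y s hs
  rw [h3, map_zero] at h4
  rw [← h4, norm_zero]

theorem cone0_iter (h : Sub S Z q T) {x : X} (hx : x ∈ Z) (hc : Cone S T 0 x) (n : ℕ) :
    Cone S T 0 (S.g.symm^[n] x) := by
  induction n with
  | zero => exact hc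
  | succ n ih =>
    rw [Function.iterate_succ_apply']
    refine cone0_back h ((h.inv' _).mpr ((h.inv_iter' n x).mpr hx)) ?_
    rwa [S.g.apply_symm_apply]

/-- the tangent spaces near a point with unstable tangent space are in a cone -/
theorem near_cone (h : Sub S Z q T) : ∃ r > 0, ∀ x ∈ Z, Cone S T 0 x → ∀ y ∈ Z, dist x y < r →
    Cone S T 1 y := by
  have hK := S.one_le_K
  set η : ℝ := 1 / (8 * S.K) with hη
  have hη0 : 0 < η := by positivity
  have hηK : S.K * η = 1 / 8 := by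
    rw [hη]; field_simp
  have hη1 : η ≤ 1 / 8 := by
    rw [hη, div_le_div_iff₀ (by positivity) (by norm_num)]
    linarith
  obtain ⟨r1, hr1, h1⟩ := h.cont η hη0
  obtain ⟨r2, hr2, h2⟩ := S.A3' η hη0
  refine ⟨min r1 r2, lt_min hr1 hr2, fun x hx hc y hy hxy s hs u hu hsu => ?_⟩
  obtain ⟨v, hv, hvd⟩ := h1 y hy x hx (by rw [dist_comm]; exact hxy.trans_le (min_le_left _ _))
    _ hsu
  obtain ⟨s1, hs1, u1, hu1, e1⟩ := Submodule.mem_sup.mp (h.le x hx hv)
  have hs10 : s1 = 0 := by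
    have := hc s1 hs1 u1 hu1 (by rw [e1]; exact hv)
    rw [zero_mul] at this
    exact norm_le_zero_iff.mp this
  rw [hs10, zero_add] at e1
  rw [← e1] at hvd hv
  obtain ⟨u2, hu2, hu2d⟩ := h2 x y (hxy.trans_le (min_le_right _ _)) u1 hu1
  have h3 : ‖s + (u - u2)‖ ≤ η * ‖s + u‖ + η * ‖u1‖ := by
    calc ‖s + (u - u2)‖ = ‖(s + u - u1) + (u1 - u2)‖ := by congr 1; abel
      _ ≤ _ := (norm_add_le _ _).trans (add_le_add hvd hu2d)
  have h4 : ‖u1‖ ≤ 2 * ‖s + u‖ := by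
    have h5 : ‖u1‖ ≤ ‖s + u‖ + ‖s + u - u1‖ := by
      calc ‖u1‖ = ‖(s + u) - (s + u - u1)‖ := by congr 1; abel
        _ ≤ _ := norm_sub_le _ _
    nlinarith [norm_nonneg (s + u)]
  have h5 := (S.angle y s hs (u - u2) ((S.Vu y).sub_mem hu hu2)).1
  have h6 : ‖s‖ ≤ 3 / 8 * ‖s + u‖ := by
    calc ‖s‖ ≤ S.K * ‖s + (u - u2)‖ := h5
      _ ≤ S.K * (η * ‖s + u‖ + η * (2 * ‖s + u‖)) := by
          gcongr
          exact h3.trans (by gcongr)
      _ = 3 * (S.K * η) * ‖s + u‖ := by ring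
      _ = 3 / 8 * ‖s + u‖ := by rw [hηK]; ring
  have h7 := norm_add_le s u
  linarith [norm_nonneg u]

/-- backward contraction near a point with unstable tangent space -/
theorem contr (h : Sub S Z q T) : ∃ r > 0, ∀ x ∈ Z, Cone S T 0 x → ∀ y ∈ Z, q x = q y →
    dist x y < r → dist (S.g.symm x) (S.g.symm y) ≤ 1 / 2 * dist x y := by
  have hK := S.one_le_K
  have hL := S.one_le_Ls
  have ha := S.a_nonneg
  have hb := S.b_nonneg
  have hb1 := b_le S
  set η : ℝ := 1 / (32 * (S.K * S.Ls)) with hη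
  have hη0 : 0 < η := by positivity
  have hηK : S.Ls * S.K * η = 1 / 32 := by
    rw [hη]; field_simp
  have hKL : 1 ≤ S.K * S.Ls := by nlinarith
  have hη1 : η ≤ 1 / 32 := by
    rw [hη, div_le_div_iff₀ (by positivity) (by norm_num)]
    linarith
  have hηK' : S.K * η ≤ 1 / 32 := by
    have : S.K * η ≤ S.Ls * (S.K * η) := le_mul_of_one_le_left (by positivity) hL
    linarith
  obtain ⟨r1, hr1, h1⟩ := h.diff η hη0
  obtain ⟨r2, hr2, h2⟩ := S.A1' η hη0
  refine ⟨min r1 r2, lt_min hr1 hr2, fun x hx hc y hy hq hxy => ?_⟩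
  obtain ⟨v, hv, hvd⟩ := h1 x hx y hy hq (hxy.trans_le (min_le_left _ _))
  obtain ⟨s, hs, u, hu, h3, h4⟩ := h2 x y (hxy.trans_le (min_le_right _ _))
  obtain ⟨s1, hs1, u1, hu1, e1⟩ := Submodule.mem_sup.mp (h.le x hx hv)
  have hs10 : s1 = 0 := by
    have := hc s1 hs1 u1 hu1 (by rw [e1]; exact hv)
    rw [zero_mul] at this
    exact norm_le_zero_iff.mp this
  rw [hs10, zero_add] at e1
  rw [← e1] at hvd hv
  set d := dist x y with hd
  have hd0 : 0 ≤ d := dist_nonneg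
  have h5 : ‖s + (u - u1)‖ ≤ 2 * η * d := by
    calc ‖s + (u - u1)‖ = ‖(S.e y - S.e x - u1) - (S.e y - S.e x - (s + u))‖ := by
          congr 1; abel
      _ ≤ ‖S.e y - S.e x - u1‖ + ‖S.e y - S.e x - (s + u)‖ := norm_sub_le _ _
      _ ≤ η * d + η * d := add_le_add hvd h3
      _ = 2 * η * d := by ring
  have h6 := (S.angle x s hs (u - u1) ((S.Vu x).sub_mem hu hu1)).1
  have h7 : ‖s‖ ≤ 2 * (S.K * η) * d := by
    calc ‖s‖ ≤ S.K * ‖s + (u - u1)‖ := h6
      _ ≤ S.K * (2 * η * d) := by gcongr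
      _ = _ := by ring
  have h8 : ‖u‖ ≤ 2 * d := by
    have h9 : ‖s + u‖ ≤ d + η * d := by
      have h10 : ‖S.e y - S.e x‖ = d := by rw [norm_sub_rev, ← S.isom]
      calc ‖s + u‖ = ‖(S.e y - S.e x) - (S.e y - S.e x - (s + u))‖ := by congr 1; abel
        _ ≤ ‖S.e y - S.e x‖ + ‖S.e y - S.e x - (s + u)‖ := norm_sub_le _ _
        _ ≤ d + η * d := by rw [h10]; linarith
    have h11 : ‖u‖ ≤ ‖s + u‖ + ‖s‖ := by
      calc ‖u‖ = ‖(s + u) - s‖ := by congr 1; abel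
        _ ≤ _ := norm_sub_le _ _
    nlinarith
  have h9 : ‖S.D' x s‖ ≤ 1 / 16 * d := by
    calc ‖S.D' x s‖ ≤ S.Ls * ‖s‖ := S.boundS x s hs
      _ ≤ S.Ls * (2 * (S.K * η) * d) := by gcongr
      _ = 2 * (S.Ls * S.K * η) * d := by ring
      _ = 1 / 16 * d := by rw [hηK]; ring
  have h10 : ‖S.D' x u‖ ≤ 1 / 8 * d := by
    calc ‖S.D' x u‖ ≤ S.b * ‖u‖ := S.contrU x u hu
      _ ≤ 1 / 16 * (2 * d) := by gcongr
      _ = 1 / 8 * d := by ring
  calc dist (S.g.symm x) (S.g.symm y) = ‖S.e (S.g.symm y) - S.e (S.g.symm x)‖ := by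
        rw [S.isom, norm_sub_rev]
    _ = ‖(S.e (S.g.symm y) - S.e (S.g.symm x) - S.D' x (s + u)) + (S.D' x s + S.D' x u)‖ := by
        rw [map_add]; congr 1; abel
    _ ≤ ‖S.e (S.g.symm y) - S.e (S.g.symm x) - S.D' x (s + u)‖ + (‖S.D' x s‖ + ‖S.D' x u‖) :=
        (norm_add_le _ _).trans (add_le_add le_rfl (norm_add_le _ _))
    _ ≤ η * d + (1 / 16 * d + 1 / 8 * d) := add_le_add h4 (add_le_add h9 h10)
    _ ≤ 1 / 2 * d := by nlinarith

/-- The points with unstable tangent space form a uniformly open set, on which `g⁻¹` is a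
contraction. -/
theorem open0 (h : Sub S Z q T) : ∃ r > 0, ∀ x ∈ Z, Cone S T 0 x → ∀ y ∈ Z, q x = q y →
    dist x y < r → Cone S T 0 y ∧ ∀ n : ℕ, dist (S.g.symm^[n] x) (S.g.symm^[n] y) ≤ (1 / 2) ^ n * dist x y := by
  obtain ⟨r1, hr1, h1⟩ := near_cone h
  obtain ⟨r2, hr2, h2⟩ := contr h
  refine ⟨min r1 r2, lt_min hr1 hr2, fun x hx hc y hy hq hxy => ?_⟩
  have key : ∀ n : ℕ, dist (S.g.symm^[n] x) (S.g.symm^[n] y) ≤ (1 / 2) ^ n * dist x y := by
    intro n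
    induction n with
    | zero => simp
    | succ n ih =>
      rw [Function.iterate_succ_apply', Function.iterate_succ_apply']
      have h3 : (1 / 2 : ℝ) ^ n * dist x y ≤ dist x y :=
        mul_le_of_le_one_left dist_nonneg (pow_le_one₀ (by norm_num) (by norm_num))
      refine (h2 _ ((h.inv_iter' n x).mpr hx) (cone0_iter h hx hc n) _
        ((h.inv_iter' n y).mpr hy) ((h.lab_iter' n x y).mpr hq) ?_).trans ?_
      · exact (ih.trans h3).trans_lt (hxy.trans_le (min_le_right _ _))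
      · rw [pow_succ]; linarith
  refine ⟨fun s hs u hu hsu => ?_, key⟩
  have h4 : ∀ n : ℕ, Cone S T (1 * (1 / 256) ^ n) y := by
    intro n
    refine cone_iter h zero_le_one n hy ?_
    refine h1 _ ((h.inv_iter' n x).mpr hx) (cone0_iter h hx hc n) _ ((h.inv_iter' n y).mpr hy) ?_
    have h3 : (1 / 2 : ℝ) ^ n * dist x y ≤ dist x y :=
      mul_le_of_le_one_left dist_nonneg (pow_le_one₀ (by norm_num) (by norm_num))
    exact ((key n).trans h3).trans_lt (hxy.trans_le (min_le_left _ _))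
  have h5 : ∀ n : ℕ, ‖s‖ ≤ (1 / 256) ^ n * ‖u‖ := fun n => by
    have := h4 n s hs u hu hsu
    rwa [one_mul] at this
  have h6 : Tendsto (fun n : ℕ => (1 / 256 : ℝ) ^ n * ‖u‖) atTop (𝓝 (0 * ‖u‖)) :=
    (tendsto_pow_atTop_nhds_zero_of_lt_one (by norm_num) (by norm_num)).mul_const _
  exact ge_of_tendsto' h6 h5

/-- the points with unstable tangent spaces are forward invariant -/
theorem cone0_fwd (h : Sub S Z q T) {x : X} (hx : x ∈ Z) (hc : Cone S T 0 x) (n : ℕ) :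
    Cone S T 0 (S.g^[n] x) := by
  have h1 : Cone S T (0 * (1 / 256) ^ n) (S.g^[n] x) := by
    refine cone_iter h le_rfl n ((h.inv_iter n x).mpr hx) ?_
    have hinv : S.g.symm^[n] (S.g^[n] x) = x :=
      (Function.LeftInverse.iterate S.g.symm_apply_apply n) x
    rwa [hinv]
  rwa [zero_mul] at h1

/-- If one tangent space is unstable then the class of the point is finite. -/
theorem finite_of_cone0 (h : Sub S Z q T) (hZc : IsCompact Z) {x : X}
    (hx : x ∈ Z) (hZ : IsPreconnected {y | y ∈ Z ∧ q x = q y}) (hc : Cone S T 0 x) :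
    {y | y ∈ Z ∧ q x = q y}.Finite := by
  obtain ⟨r, hr, h1⟩ := open0 h
  -- all points of the class have unstable tangent spaces
  have hall : ∀ y ∈ Z, q x = q y → Cone S T 0 y := by
    by_contra hcon
    push Not at hcon
    obtain ⟨y, hy, hyq, hyc⟩ := hcon
    obtain ⟨z, hz, hz1, hz2⟩ := hZ (⋃ a ∈ {a | (a ∈ Z ∧ q x = q a) ∧ Cone S T 0 a}, ball a r)
      (⋃ a ∈ {a | (a ∈ Z ∧ q x = q a) ∧ ¬ Cone S T 0 a}, ball a r)
      (isOpen_biUnion fun _ _ => isOpen_ball) (isOpen_biUnion fun _ _ => isOpen_ball)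
      (fun a ha => by
        by_cases hac : Cone S T 0 a
        · exact Or.inl (mem_iUnion₂.mpr ⟨a, ⟨ha, hac⟩, mem_ball_self hr⟩)
        · exact Or.inr (mem_iUnion₂.mpr ⟨a, ⟨ha, hac⟩, mem_ball_self hr⟩))
      ⟨x, ⟨hx, rfl⟩, mem_iUnion₂.mpr ⟨x, ⟨⟨hx, rfl⟩, hc⟩, mem_ball_self hr⟩⟩
      ⟨y, ⟨hy, hyq⟩, mem_iUnion₂.mpr ⟨y, ⟨⟨hy, hyq⟩, hyc⟩, mem_ball_self hr⟩⟩
    obtain ⟨a, ⟨ha, hac⟩, haz⟩ := mem_iUnion₂.mp hz1
    obtain ⟨b, ⟨hb, hbc⟩, hbz⟩ := mem_iUnion₂.mp hz2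
    have hzc : Cone S T 0 z := (h1 a ha.1 hac z hz.1 (ha.2.symm.trans hz.2)
      (by rw [dist_comm]; exact haz)).1
    exact hbc (h1 z hz.1 hzc b hb.1 (hz.2.symm.trans hb.2) hbz).1
  -- covering by finitely many small sets
  obtain ⟨t, ht, hcov⟩ := hZc.elim_nhds_subcover (fun a => ball a (r / 2))
    (fun a _ => ball_mem_nhds a (half_pos hr))
  by_contra hinf
  obtain ⟨P, hPZ, hPc⟩ := Set.Infinite.exists_subset_card_eq hinf (t.card + 1)
  have hne : (P.offDiag).Nonempty := by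
    have hcard : 1 < P.card ∨ P.card ≤ 1 := by omega
    rcases hcard with h2 | h2
    · obtain ⟨a, ha, b, hb, hab⟩ := Finset.one_lt_card.mp h2
      exact ⟨(a, b), Finset.mem_offDiag.mpr ⟨ha, hb, hab⟩⟩
    · exfalso
      have ht0 : t.card = 0 := by omega
      have ht1 : t = ∅ := Finset.card_eq_zero.mp ht0
      have := hcov hx
      rw [ht1] at this
      simp at this
  obtain ⟨⟨a0, b0⟩, hab0, hmin⟩ := Finset.exists_min_image P.offDiag (fun q => dist q.1 q.2) hne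
  obtain ⟨ha0, hb0, hne0⟩ := Finset.mem_offDiag.mp hab0
  have hd0 : 0 < dist a0 b0 := dist_pos.mpr hne0
  have h3 : Tendsto (fun n : ℕ => (1 / 2 : ℝ) ^ n * r) atTop (𝓝 (0 * r)) :=
    (tendsto_pow_atTop_nhds_zero_of_lt_one (by norm_num) (by norm_num)).mul_const _
  rw [zero_mul] at h3
  obtain ⟨n, hn⟩ := ((tendsto_order.mp h3).2 _ hd0).exists
  have hch : ∀ p ∈ P, ∃ i ∈ t, S.g^[n] p ∈ ball i (r / 2) := by
    intro p hp
    have := hcov ((h.inv_iter n p).mpr (hPZ hp).1)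
    obtain ⟨i, hi, hi'⟩ := mem_iUnion₂.mp this
    exact ⟨i, hi, hi'⟩
  choose! i hi hib using hch
  obtain ⟨p, hp, p', hp', hpq, hipq⟩ := Finset.exists_ne_map_eq_of_card_lt_of_maps_to
    (s := P) (t := t) (by omega) (f := i) hi
  have h4 : dist (S.g^[n] p) (S.g^[n] p') < r := by
    have h5 := hib p hp
    have h6 := hib p' hp'
    rw [mem_ball] at h5 h6
    rw [hipq] at h5
    have := dist_triangle_right (S.g^[n] p) (S.g^[n] p') (i p')
    linarith
  have h5 := (h1 _ ((h.inv_iter n p).mpr (hPZ hp).1)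
    (cone0_fwd h (hPZ hp).1 (hall _ (hPZ hp).1 (hPZ hp).2) n) _
    ((h.inv_iter n p').mpr (hPZ hp').1)
    ((h.lab_iter n p p').mpr ((hPZ hp).2.symm.trans (hPZ hp').2)) h4).2 n
  have hinv : ∀ z, S.g.symm^[n] (S.g^[n] z) = z :=
    Function.LeftInverse.iterate S.g.symm_apply_apply n
  rw [hinv, hinv] at h5
  have h6 := hmin (p, p') (Finset.mem_offDiag.mpr ⟨hp, hp', hpq⟩)
  have h7 : (1 / 2 : ℝ) ^ n * dist (S.g^[n] p) (S.g^[n] p') ≤ (1 / 2) ^ n * r := by gcongr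
  simp only at h6
  linarith

/-- a tangent space without stable directions is in a cone -/
theorem exists_cone [FiniteDimensional ℝ E] {x : X}
    (hT : ∀ v ∈ T x, v ∈ S.Vs x → v = 0) : ∃ κ ≥ 0, Cone S T κ x := by
  by_contra hcon
  push Not at hcon
  have h1 : ∀ n : ℕ, ∃ s ∈ S.Vs x, ∃ u ∈ S.Vu x, s + u ∈ T x ∧ (n : ℝ) * ‖u‖ < ‖s‖ := by
    intro n
    have h2 := hcon n (Nat.cast_nonneg n)
    unfold Cone at h2
    push Not at h2
    exact h2
  choose s hs u hu hsu hlt using h1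
  have hs0 : ∀ n, 0 < ‖s n‖ := fun n => lt_of_le_of_lt (by positivity) (hlt n)
  have : ProperSpace E := FiniteDimensional.proper ℝ E
  obtain ⟨w, hw, φ, hφ, hlim⟩ := (isCompact_sphere (0 : E) 1).tendsto_subseq
    (x := fun n => ‖s n‖⁻¹ • s n) (fun n => by
      rw [mem_sphere_zero_iff_norm, norm_smul, norm_inv, norm_norm]
      exact inv_mul_cancel₀ (hs0 n).ne')
  have hw1 : ‖w‖ = 1 := by simpa using hw
  have h3 : Tendsto (fun n => ‖s n‖⁻¹ • u n) atTop (𝓝 0) := by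
    rw [tendsto_zero_iff_norm_tendsto_zero]
    refine squeeze_zero' (Eventually.of_forall fun _ => norm_nonneg _) ?_
      tendsto_one_div_atTop_nhds_zero_nat
    filter_upwards [eventually_ge_atTop 1] with n hn
    rw [norm_smul, norm_inv, norm_norm]
    have hn0 : (0 : ℝ) < n := by exact_mod_cast hn
    rw [inv_mul_le_iff₀ (hs0 n), mul_one_div, le_div_iff₀ hn0, mul_comm]
    exact (hlt n).le
  have hwS : w ∈ S.Vs x := by
    have hcl : IsClosed (S.Vs x : Set E) := (S.Vs x).closed_of_finiteDimensional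
    exact hcl.mem_of_tendsto hlim (Eventually.of_forall fun n =>
      (S.Vs x).smul_mem _ (hs _))
  have hwT : w ∈ T x := by
    have hcl : IsClosed (T x : Set E) := (T x).closed_of_finiteDimensional
    have h4 : Tendsto (fun n => ‖s (φ n)‖⁻¹ • s (φ n) + ‖s (φ n)‖⁻¹ • u (φ n)) atTop
        (𝓝 (w + 0)) := hlim.add (h3.comp hφ.tendsto_atTop)
    rw [add_zero] at h4
    refine hcl.mem_of_tendsto h4 (Eventually.of_forall fun n => ?_)
    rw [← smul_add]
    exact (T x).smul_mem _ (hsu _)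
  have := hT w hwT hwS
  rw [this, norm_zero] at hw1
  exact zero_ne_one hw1

/-- If some tangent space has no stable direction then some tangent space is unstable. -/
theorem exists_cone0 [FiniteDimensional ℝ E] (h : Sub S Z q T) (hZc : IsCompact Z) {x : X}
    (hx : x ∈ Z) (hT : ∀ v ∈ T x, v ∈ S.Vs x → v = 0) : ∃ y ∈ Z, Cone S T 0 y := by
  obtain ⟨κ, hκ, hc⟩ := exists_cone hT
  obtain ⟨y, hy, φ, hφ, hlim⟩ := hZc.tendsto_subseq (x := fun n => S.g^[n] x)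
    (fun n => (h.inv_iter n x).mpr hx)
  have hK := S.one_le_K
  refine ⟨y, hy, fun s hs u hu hsu => ?_⟩
  rw [zero_mul]
  have hcn : ∀ n, Cone S T (κ * (1 / 256) ^ n) (S.g^[n] x) := fun n => by
    refine cone_iter h hκ n ((h.inv_iter n x).mpr hx) ?_
    have hinv : S.g.symm^[n] (S.g^[n] x) = x :=
      (Function.LeftInverse.iterate S.g.symm_apply_apply n) x
    rwa [hinv]
  have key : ∀ η > 0, ∃ n₀ : ℕ, ∀ n ≥ n₀, ‖s‖ ≤ η * ‖s‖ + S.K * (η * (‖s + u‖ + ‖s‖ + ‖u‖)) +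
      κ * (1 / 256) ^ (φ n) * (‖u‖ + η * ‖u‖ + S.K * (η * (‖s + u‖ + ‖s‖ + ‖u‖))) := by
    intro η hη
    obtain ⟨r1, hr1, h1⟩ := h.cont η hη
    obtain ⟨r2, hr2, h2⟩ := S.A3 η hη
    obtain ⟨r3, hr3, h3⟩ := S.A3' η hη
    obtain ⟨n₀, hn₀⟩ := Metric.tendsto_atTop.mp hlim (min r1 (min r2 r3))
      (lt_min hr1 (lt_min hr2 hr3))
    refine ⟨n₀, fun n hn => ?_⟩
    have hd := hn₀ n hn
    simp only [Function.comp_apply] at hd
    rw [dist_comm] at hd
    set z := S.g^[φ n] x with hz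
    have hzZ : z ∈ Z := (h.inv_iter _ x).mpr hx
    obtain ⟨v', hv', hv'd⟩ := h1 y hy z hzZ (hd.trans_le (min_le_left _ _)) _ hsu
    obtain ⟨s', hs', hs'd⟩ := h2 y z (hd.trans_le ((min_le_right _ _).trans (min_le_left _ _)))
      s hs
    obtain ⟨u', hu', hu'd⟩ := h3 y z (hd.trans_le ((min_le_right _ _).trans (min_le_right _ _)))
      u hu
    obtain ⟨s'', hs'', u'', hu'', e1⟩ := Submodule.mem_sup.mp (h.le z hzZ hv')
    have h4 : ‖(s'' - s') + (u'' - u')‖ ≤ η * (‖s + u‖ + ‖s‖ + ‖u‖) := by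
      calc ‖(s'' - s') + (u'' - u')‖ = ‖-((s + u) - v') + ((s - s') + (u - u'))‖ := by
            rw [← e1]; congr 1; abel
        _ ≤ ‖-((s + u) - v')‖ + (‖s - s'‖ + ‖u - u'‖) :=
            (norm_add_le _ _).trans (add_le_add le_rfl (norm_add_le _ _))
        _ ≤ η * ‖s + u‖ + (η * ‖s‖ + η * ‖u‖) := by
            rw [norm_neg]
            exact add_le_add hv'd (add_le_add hs'd hu'd)
        _ = _ := by ring
    obtain ⟨h5, h6⟩ := S.angle z (s'' - s') ((S.Vs z).sub_mem hs'' hs') (u'' - u')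
      ((S.Vu z).sub_mem hu'' hu')
    have h7 : ‖s'' - s'‖ ≤ S.K * (η * (‖s + u‖ + ‖s‖ + ‖u‖)) := h5.trans (by gcongr)
    have h8 : ‖u'' - u'‖ ≤ S.K * (η * (‖s + u‖ + ‖s‖ + ‖u‖)) := h6.trans (by gcongr)
    have h9 := hcn (φ n) s'' hs'' u'' hu'' (by rw [e1]; exact hv')
    have h10 : ‖u''‖ ≤ ‖u‖ + η * ‖u‖ + S.K * (η * (‖s + u‖ + ‖s‖ + ‖u‖)) := by
      calc ‖u''‖ = ‖u - (u - u') + (u'' - u')‖ := by congr 1; abel
        _ ≤ ‖u‖ + ‖u - u'‖ + ‖u'' - u'‖ :=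
            (norm_add_le _ _).trans (add_le_add (norm_sub_le _ _) le_rfl)
        _ ≤ _ := add_le_add (add_le_add le_rfl hu'd) h8
    calc ‖s‖ = ‖(s - s') + (-(s'' - s')) + s''‖ := by congr 1; abel
      _ ≤ ‖s - s'‖ + ‖-(s'' - s')‖ + ‖s''‖ :=
          (norm_add_le _ _).trans (add_le_add (norm_add_le _ _) le_rfl)
      _ ≤ η * ‖s‖ + S.K * (η * (‖s + u‖ + ‖s‖ + ‖u‖)) +
          κ * (1 / 256) ^ (φ n) * (‖u‖ + η * ‖u‖ + S.K * (η * (‖s + u‖ + ‖s‖ + ‖u‖))) := by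
        rw [norm_neg]
        refine add_le_add (add_le_add hs'd h7) (h9.trans ?_)
        gcongr
  have key2 : ∀ η > 0, ‖s‖ ≤ η * ‖s‖ + S.K * (η * (‖s + u‖ + ‖s‖ + ‖u‖)) := by
    intro η hη
    obtain ⟨n₀, hn₀⟩ := key η hη
    have h1 : Tendsto (fun n : ℕ => η * ‖s‖ + S.K * (η * (‖s + u‖ + ‖s‖ + ‖u‖)) +
        κ * (1 / 256 : ℝ) ^ (φ n) * (‖u‖ + η * ‖u‖ + S.K * (η * (‖s + u‖ + ‖s‖ + ‖u‖)))) atTop
        (𝓝 (η * ‖s‖ + S.K * (η * (‖s + u‖ + ‖s‖ + ‖u‖)) +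
          κ * 0 * (‖u‖ + η * ‖u‖ + S.K * (η * (‖s + u‖ + ‖s‖ + ‖u‖))))) :=
      (((tendsto_pow_atTop_nhds_zero_of_lt_one (by norm_num) (by norm_num)).comp
        hφ.tendsto_atTop).const_mul κ |>.mul_const _).const_add _
    have h2 := ge_of_tendsto h1 (eventually_atTop.mpr ⟨n₀, hn₀⟩)
    simpa using h2
  have h3 : Tendsto (fun n : ℕ => 1 / ((n : ℝ) + 1) * ‖s‖ + S.K * (1 / ((n : ℝ) + 1) *
      (‖s + u‖ + ‖s‖ + ‖u‖))) atTop (𝓝 (0 * ‖s‖ + S.K * (0 * (‖s + u‖ + ‖s‖ + ‖u‖)))) :=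
    (tendsto_one_div_add_atTop_nhds_zero_nat.mul_const _).add
      ((tendsto_one_div_add_atTop_nhds_zero_nat.mul_const _).const_mul _)
  have h4 := ge_of_tendsto' h3 fun n => key2 (1 / ((n : ℝ) + 1)) (by positivity)
  simpa using h4

/-- **Stable directions.**  If the classes are compact, connected and infinite then there are
nontrivial stable directions at all points. -/
theorem exists_stable [FiniteDimensional ℝ E] (h : Sub S Z q T) (hZc : IsCompact Z)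
    (hZ : ∀ x ∈ Z, IsPreconnected {y | y ∈ Z ∧ q x = q y})
    (hinf : ∀ x ∈ Z, {y | y ∈ Z ∧ q x = q y}.Infinite) {x : X} (hx : x ∈ Z) :
    ∃ v ∈ T x, v ∈ S.Vs x ∧ v ≠ 0 := by
  by_contra hcon
  push Not at hcon
  obtain ⟨y, hy, hc⟩ := exists_cone0 h hZc hx (fun v hv hvs => hcon v hv hvs)
  exact hinf y hy (finite_of_cone0 h hZc hy (hZ y hy) hc)

theorem exists_unstable [FiniteDimensional ℝ E] (h : Sub S Z q T) (hZc : IsCompact Z)
    (hZ : ∀ x ∈ Z, IsPreconnected {y | y ∈ Z ∧ q x = q y})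
    (hinf : ∀ x ∈ Z, {y | y ∈ Z ∧ q x = q y}.Infinite) {x : X} (hx : x ∈ Z) :
    ∃ v ∈ T x, v ∈ S.Vu x ∧ v ≠ 0 := exists_stable h.symm hZc hZ hinf hx

end Pool.Agent.R189.IS
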