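import Pool.Agent.H66.L.S8.H721R2.Embed

/-!
# Uniform distance to the kernel for maps of constant rank
-/

set_option autoImplicit false
set_option linter.unusedSectionVars false

open scoped Manifold ContDiff Topology
open Set Filter

namespace Pool.Agent.R189.Fb

open Pool.Agent.H721R2

section lin
variable {X : Type*} [TopologicalSpace X]
  {E : Type*} [NormedAddCommGroup E] [NormedSpace ℝ E] [FiniteDimensional ℝ E]
  {F : Type*} [NormedAddCommGroup F] [NormedSpace ℝ F]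

/-- linear maps of constant rank -/
theorem lin_ker (L : X → E →L[ℝ] F) (x₀ : X) (hL : ContinuousAt L x₀)
    (hr : ∀ᶠ x in 𝓝 x₀, Module.finrank ℝ (LinearMap.ker (L x).toLinearMap) =
      Module.finrank ℝ (LinearMap.ker (L x₀).toLinearMap)) :
    ∃ C > 0, ∀ᶠ x in 𝓝 x₀, ∀ u : E, ∃ u', L x u' = 0 ∧ ‖u - u'‖ ≤ C * ‖L x u‖ := by
  obtain ⟨A, hA⟩ := Submodule.exists_isCompl (LinearMap.ker (L x₀).toLinearMap)
  have hk : LinearMap.ker ((L x₀).toLinearMap.comp A.subtype) = ⊥ := by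
    rw [eq_bot_iff]
    intro u hu
    have h1 : (u : E) ∈ LinearMap.ker (L x₀).toLinearMap ⊓ A := ⟨hu, u.2⟩
    rw [hA.inf_eq_bot] at h1
    have h2 : (u : E) = 0 := h1
    exact Subtype.ext h2
  obtain ⟨K, hK, hKa⟩ := ((L x₀).toLinearMap.comp A.subtype).exists_antilipschitzWith hk
  have hK' : ∀ u ∈ A, ‖u‖ ≤ K * ‖L x₀ u‖ := by
    intro u hu
    have := hKa.le_mul_dist ⟨u, hu⟩ 0
    rw [map_zero, dist_zero_right, dist_zero_right] at this
    exact this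
  have hK0 : (0 : ℝ) < K := hK
  have h1 : ∀ᶠ x in 𝓝 x₀, ‖L x - L x₀‖ ≤ 1 / (2 * K) := by
    have := Metric.continuousAt_iff'.mp hL (1 / (2 * K)) (by positivity)
    filter_upwards [this] with x hx
    rw [← dist_eq_norm]
    exact hx.le
  refine ⟨2 * K, by positivity, ?_⟩
  filter_upwards [h1, hr] with x hx hxr u
  have h2 : ∀ u ∈ A, ‖u‖ ≤ 2 * K * ‖L x u‖ := by
    intro u hu
    have h3 := hK' u hu
    have h4 : ‖L x₀ u‖ ≤ ‖L x u‖ + 1 / (2 * K) * ‖u‖ := by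
      have e1 : L x₀ u = L x u - (L x - L x₀) u := by simp
      have h5 := norm_sub_le (L x u) ((L x - L x₀) u)
      rw [← e1] at h5
      have h6 : ‖(L x - L x₀) u‖ ≤ 1 / (2 * K) * ‖u‖ :=
        (ContinuousLinearMap.le_opNorm _ _).trans (mul_le_mul_of_nonneg_right hx (norm_nonneg _))
      linarith
    have h7 : (K : ℝ) * ‖L x₀ u‖ ≤ K * (‖L x u‖ + 1 / (2 * K) * ‖u‖) :=
      mul_le_mul_of_nonneg_left h4 hK0.le
    have h8 : (K : ℝ) * (‖L x u‖ + 1 / (2 * K) * ‖u‖) = K * ‖L x u‖ + ‖u‖ / 2 := by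
      field_simp
    linarith
  have h3 : LinearMap.ker (L x).toLinearMap ⊓ A = ⊥ := by
    rw [eq_bot_iff]
    rintro v ⟨hv1, hv2⟩
    have h4 := h2 v hv2
    have h5 : L x v = 0 := hv1
    rw [h5, norm_zero, mul_zero] at h4
    have h6 : v = 0 := norm_le_zero_iff.mp h4
    rw [h6]
    exact Submodule.zero_mem _
  have h4 : LinearMap.ker (L x).toLinearMap ⊔ A = ⊤ := by
    apply Submodule.eq_top_of_finrank_eq
    have h5 := Submodule.finrank_sup_add_finrank_inf_eq (LinearMap.ker (L x).toLinearMap) A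
    rw [h3, finrank_bot, hxr, Submodule.finrank_add_eq_of_isCompl hA] at h5
    exact h5
  have h5 : u ∈ LinearMap.ker (L x).toLinearMap ⊔ A := by rw [h4]; trivial
  obtain ⟨k, hk, a, ha, hsum⟩ := Submodule.mem_sup.mp h5
  have hk' : L x k = 0 := hk
  refine ⟨k, hk', ?_⟩
  have e1 : u - k = a := by rw [← hsum]; abel
  have e2 : L x u = L x a := by rw [← hsum, map_add, hk', zero_add]
  rw [e1, e2]
  exact h2 a ha

end lin

section man
variable {E₀ : Type*} [NormedAddCommGroup E₀] [NormedSpace ℝ E₀] [FiniteDimensional ℝ E₀]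
  {M : Type*} [MetricSpace M] [CompactSpace M] [ChartedSpace E₀ M] [IsManifold 𝓘(ℝ, E₀) 1 M]
  {F : Type*} [NormedAddCommGroup F] [NormedSpace ℝ F]
  {F' : Type*} [NormedAddCommGroup F'] [NormedSpace ℝ F']

theorem hat_continuousAt (h : M → F) (hh : ContMDiff 𝓘(ℝ, E₀) 𝓘(ℝ, F) 1 h) (x₀ : M) :
    ContinuousAt (fun x => fderiv ℝ (hatMap (E₀ := E₀) h x₀) (extChartAt 𝓘(ℝ, E₀) x₀ x)) x₀ := by
  have hp₀t : extChartAt 𝓘(ℝ, E₀) x₀ x₀ ∈ (extChartAt 𝓘(ℝ, E₀) x₀).target :=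
    mem_extChartAt_target x₀
  have hc := hatMap_contDiffAt h hh x₀ _ hp₀t
  have hcd : ContinuousAt (fderiv ℝ (hatMap (E₀ := E₀) h x₀)) (extChartAt 𝓘(ℝ, E₀) x₀ x₀) := by
    have := hc.fderiv_right (m := 0) (by norm_num)
    exact this.continuousAt
  exact ContinuousAt.comp (f := extChartAt 𝓘(ℝ, E₀) x₀) hcd (continuousAt_extChartAt x₀)

/-- **Uniform distance to the kernel.** -/
theorem ker_unif (e : M → F) (he : ContMDiff 𝓘(ℝ, E₀) 𝓘(ℝ, F) 1 e)
    (h : M → F') (hh : ContMDiff 𝓘(ℝ, E₀) 𝓘(ℝ, F') 1 h) (r : ℕ)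
    (hr : ∀ x, Module.finrank ℝ (LinearMap.ker (dm E₀ h x).toLinearMap) = r) :
    ∃ C > 0, ∀ x, ∀ v : E₀, ∃ v', dm E₀ h x v' = 0 ∧
      ‖dm E₀ e x (v - v')‖ ≤ C * ‖dm E₀ h x v‖ := by
  apply exists_uniform_const
  · intro C C' x hCC' hx v
    obtain ⟨v', h1, h2⟩ := hx v
    exact ⟨v', h1, h2.trans (mul_le_mul_of_nonneg_right hCC' (norm_nonneg _))⟩
  · intro x₀
    set φ := extChartAt 𝓘(ℝ, E₀) x₀ with hφ
    set L : M → E₀ →L[ℝ] F' := fun x => fderiv ℝ (hatMap (E₀ := E₀) h x₀) (φ x) with hL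
    set Le : M → E₀ →L[ℝ] F := fun x => fderiv ℝ (hatMap (E₀ := E₀) e x₀) (φ x) with hLe
    have hsrc : φ.source ∈ 𝓝 x₀ := extChartAt_source_mem_nhds x₀
    have hLm : ∀ x ∈ φ.source, ∀ v, dm E₀ h x v = L x (dm E₀ φ x v) := fun x hx v =>
      hatMap_mfderiv h hh x₀ x hx v
    have hLem : ∀ x ∈ φ.source, ∀ v, dm E₀ e x v = Le x (dm E₀ φ x v) := fun x hx v =>
      hatMap_mfderiv e he x₀ x hx v
    have hrk : ∀ x ∈ φ.source, Module.finrank ℝ (LinearMap.ker (L x).toLinearMap) = r := by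
      intro x hx
      obtain ⟨A, hA⟩ := isInvertible_mfderiv_extChartAt (I := 𝓘(ℝ, E₀)) hx
      have hAv : ∀ v : E₀, dm E₀ φ x v = A v := fun v => by
        show mfderiv 𝓘(ℝ, E₀) 𝓘(ℝ, E₀) φ x v = A v
        rw [← hA]; rfl
      let A' : E₀ ≃L[ℝ] E₀ := A
      rw [← hr x]
      have h1 : LinearMap.ker (dm E₀ h x).toLinearMap =
          (LinearMap.ker (L x).toLinearMap).comap A'.toLinearEquiv.toLinearMap := by
        ext v
        rw [Submodule.mem_comap, LinearMap.mem_ker, LinearMap.mem_ker]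
        show dm E₀ h x v = 0 ↔ L x (A v) = 0
        rw [hLm x hx, hAv]
      rw [h1]
      have h2 := LinearEquiv.finrank_eq (A'.toLinearEquiv.submoduleMap
        ((LinearMap.ker (L x).toLinearMap).comap A'.toLinearEquiv.toLinearMap))
      rw [h2]
      have h3 : Submodule.map A'.toLinearEquiv.toLinearMap
          (Submodule.comap A'.toLinearEquiv.toLinearMap (LinearMap.ker (L x).toLinearMap)) =
          LinearMap.ker (L x).toLinearMap :=
        Submodule.map_comap_eq_of_surjective A'.toLinearEquiv.surjective _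
      exact congrArg (fun V : Submodule ℝ E₀ => Module.finrank ℝ V) h3.symm
    obtain ⟨C, hC, h1⟩ := lin_ker L x₀ (hat_continuousAt h hh x₀) (by
      filter_upwards [hsrc] with x hx
      rw [hrk x hx, hrk x₀ (mem_of_mem_nhds hsrc)])
    have h2 : ∀ᶠ x in 𝓝 x₀, ‖Le x‖ ≤ ‖Le x₀‖ + 1 := by
      have h3 : ContinuousAt (fun x => ‖Le x‖) x₀ := (hat_continuousAt e he x₀).norm
      exact (h3.eventually (gt_mem_nhds (lt_add_one _))).mono fun x hx => le_of_lt hx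
    refine ⟨(‖Le x₀‖ + 1) * C, ?_⟩
    filter_upwards [h1, h2, hsrc] with x hx1 hx2 hx v
    obtain ⟨u', hu1, hu2⟩ := hx1 (dm E₀ φ x v)
    obtain ⟨A, hA⟩ := isInvertible_mfderiv_extChartAt (I := 𝓘(ℝ, E₀)) hx
    have hAv : ∀ v : E₀, dm E₀ φ x v = A v := fun v => by
      show mfderiv 𝓘(ℝ, E₀) 𝓘(ℝ, E₀) φ x v = A v
      rw [← hA]; rfl
    obtain ⟨v', hAs⟩ : ∃ v' : E₀, dm E₀ φ x v' = u' :=
      ⟨A.symm u', (hAv _).trans (A.apply_symm_apply u')⟩
    refine ⟨v', ?_, ?_⟩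
    · rw [hLm x hx, hAs, hu1]
    · rw [hLem x hx, map_sub, hAs, hLm x hx]
      calc ‖Le x (dm E₀ φ x v - u')‖ ≤ ‖Le x‖ * ‖dm E₀ φ x v - u'‖ :=
            ContinuousLinearMap.le_opNorm _ _
        _ ≤ (‖Le x₀‖ + 1) * (C * ‖L x (dm E₀ φ x v)‖) :=
            mul_le_mul hx2 hu2 (norm_nonneg _) (by positivity)
        _ = _ := by ring

end man

end Pool.Agent.R189.Fb
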