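import Pool.Agent.H66.L.S8.Y330.E.L9

/-!
# Anosov diffeomorphisms of closed surfaces are transitive
-/

set_option autoImplicit false
set_option linter.unusedSectionVars false

open scoped Manifold ContDiff Topology Bundle
open Set Filter Bundle

namespace Pool.Agent.R189.Sf

open Pool.Agent.H721R2 Pool.Agent.H789R2.AN

section pow
variable {E : Type*} [NormedAddCommGroup E] [NormedSpace ℝ E]
  {M : Type*} [TopologicalSpace M] [ChartedSpace E M] [IsManifold 𝓘(ℝ, E) 1 M]

theorem inv_id (V : ∀ x : M, Submodule ℝ (TangentSpace 𝓘(ℝ, E) x)) :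
    InvariantField (E := E) (id : M → M) V := by
  intro x
  rw [mfderiv_id]
  exact Submodule.map_id _

theorem inv_comp {G G' : M → M} (hG : ContMDiff 𝓘(ℝ, E) 𝓘(ℝ, E) 1 G)
    (hG' : ContMDiff 𝓘(ℝ, E) 𝓘(ℝ, E) 1 G') {V : ∀ x : M, Submodule ℝ (TangentSpace 𝓘(ℝ, E) x)}
    (h : InvariantField G V) (h' : InvariantField G' V) : InvariantField (G' ∘ G) V := by
  intro x
  have h1 : mfderiv 𝓘(ℝ, E) 𝓘(ℝ, E) (G' ∘ G) x =
      (mfderiv 𝓘(ℝ, E) 𝓘(ℝ, E) G' (G x)).comp (mfderiv 𝓘(ℝ, E) 𝓘(ℝ, E) G x) :=
    mfderiv_comp x (hG'.mdifferentiableAt (by norm_num)) (hG.mdifferentiableAt (by norm_num))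
  rw [h1]
  show Submodule.map _ (V x) = V (G' (G x))
  rw [← h' (G x), ← h x, ← Submodule.map_comp]
  rfl

theorem inv_iter {G : M → M} (hG : ContMDiff 𝓘(ℝ, E) 𝓘(ℝ, E) 1 G)
    {V : ∀ x : M, Submodule ℝ (TangentSpace 𝓘(ℝ, E) x)}
    (h : InvariantField G V) (n : ℕ) : InvariantField (G^[n]) V := by
  induction n with
  | zero => exact inv_id V
  | succ n ih =>
    rw [Function.iterate_succ]
    exact inv_comp hG (iter_smooth G hG n) h ih

theorem inv_inv {G G' : M → M} (hG : ContMDiff 𝓘(ℝ, E) 𝓘(ℝ, E) 1 G)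
    (hG' : ContMDiff 𝓘(ℝ, E) 𝓘(ℝ, E) 1 G') (hl : ∀ x, G' (G x) = x) (hr : ∀ x, G (G' x) = x)
    {V : ∀ x : M, Submodule ℝ (TangentSpace 𝓘(ℝ, E) x)}
    (h : InvariantField G V) : InvariantField G' V := by
  intro x
  obtain ⟨y, rfl⟩ : ∃ y, G y = x := ⟨G' x, hr x⟩
  rw [← h y, ← Submodule.map_comp, hl]
  ext v
  constructor
  · rintro ⟨w, hw, rfl⟩
    have h1 := dg_inv G G' hG hG' hl y w
    show dg E G' (G y) (dg E G y w) ∈ _
    rw [h1]
    exact hw
  · intro hv
    exact ⟨v, hv, dg_inv G G' hG hG' hl y v⟩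

theorem smooth_iter {r : WithTop ℕ∞} {G : M → M} (hG : ContMDiff 𝓘(ℝ, E) 𝓘(ℝ, E) r G) (n : ℕ) :
    ContMDiff 𝓘(ℝ, E) 𝓘(ℝ, E) r (G^[n]) := by
  induction n with
  | zero => exact contMDiff_id
  | succ n ih => exact ih.comp hG

/-- integral powers of a diffeomorphism -/
theorem perm_cases (F : Equiv.Perm M) (z : ℤ) :
    (∃ n : ℕ, z = n ∧ ((F ^ z : Equiv.Perm M) : M → M) = F^[n]) ∨
      ∃ n : ℕ, z = -n ∧ ((F ^ z : Equiv.Perm M) : M → M) = F.symm^[n] := by
  obtain ⟨n, rfl | rfl⟩ := Int.eq_nat_or_neg z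
  · left
    refine ⟨n, rfl, ?_⟩
    rw [zpow_natCast]
    exact (Equiv.Perm.iterate_eq_pow F n).symm
  · right
    refine ⟨n, rfl, ?_⟩
    rw [zpow_neg, zpow_natCast, ← inv_pow]
    exact (Equiv.Perm.iterate_eq_pow F⁻¹ n).symm

theorem smooth_perm {r : WithTop ℕ∞} (F : Diffeomorph 𝓘(ℝ, E) 𝓘(ℝ, E) M M 1)
    (h : ContMDiff 𝓘(ℝ, E) 𝓘(ℝ, E) r F) (h' : ContMDiff 𝓘(ℝ, E) 𝓘(ℝ, E) r F.symm) (z : ℤ) :
    ContMDiff 𝓘(ℝ, E) 𝓘(ℝ, E) r ((F.toEquiv ^ z : Equiv.Perm M) : M → M) := by
  rcases perm_cases F.toEquiv z with ⟨n, -, e⟩ | ⟨n, -, e⟩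
  · rw [e]; exact smooth_iter h n
  · rw [e]; exact smooth_iter h' n

/-- integral powers of a diffeomorphism -/
noncomputable def zp (F : Diffeomorph 𝓘(ℝ, E) 𝓘(ℝ, E) M M 1) (z : ℤ) :
    Diffeomorph 𝓘(ℝ, E) 𝓘(ℝ, E) M M 1 where
  toEquiv := F.toEquiv ^ z
  contMDiff_toFun := smooth_perm F F.contMDiff F.symm.contMDiff z
  contMDiff_invFun := by
    have h := smooth_perm F F.contMDiff F.symm.contMDiff (-z)
    rw [zpow_neg] at h
    exact h

theorem zp_add (F : Diffeomorph 𝓘(ℝ, E) 𝓘(ℝ, E) M M 1) (a b : ℤ) (x : M) :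
    zp F (a + b) x = zp F a (zp F b x) := by
  show (F.toEquiv ^ (a + b) : Equiv.Perm M) x = _
  rw [zpow_add]
  rfl

theorem zp_one (F : Diffeomorph 𝓘(ℝ, E) 𝓘(ℝ, E) M M 1) (x : M) : zp F 1 x = F x := by
  show (F.toEquiv ^ (1 : ℤ) : Equiv.Perm M) x = _
  rw [zpow_one]
  rfl

theorem zp_inv (F : Diffeomorph 𝓘(ℝ, E) 𝓘(ℝ, E) M M 1)
    {V : ∀ x : M, Submodule ℝ (TangentSpace 𝓘(ℝ, E) x)} (h : InvariantField F V) (z : ℤ) :
    InvariantField (zp F z) V := by
  rcases perm_cases F.toEquiv z with ⟨n, -, e⟩ | ⟨n, -, e⟩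
  · have h1 : (zp F z : M → M) = F^[n] := e
    rw [h1]
    exact inv_iter F.contMDiff h n
  · have h1 : (zp F z : M → M) = F.symm^[n] := e
    rw [h1]
    exact inv_iter F.symm.contMDiff (inv_inv F.contMDiff F.symm.contMDiff F.symm_apply_apply
      F.apply_symm_apply h) n

theorem anosov_iter {F : Diffeomorph 𝓘(ℝ, E) 𝓘(ℝ, E) M M 1}
    {Es Eu : ∀ x : M, Submodule ℝ (TangentSpace 𝓘(ℝ, E) x)} (h : IsAnosov F Es Eu)
    {G : Diffeomorph 𝓘(ℝ, E) 𝓘(ℝ, E) M M 1} {n : ℕ} (hn : 1 ≤ n) (hG : (G : M → M) = F^[n])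
    (hG' : (G.symm : M → M) = F.symm^[n]) : IsAnosov G Es Eu where
  isCompl := h.isCompl
  map_s := by rw [hG]; exact inv_iter F.contMDiff h.map_s n
  map_u := by rw [hG]; exact inv_iter F.contMDiff h.map_u n
  rates := by
    obtain ⟨N, C, l, hN, hC, hl0, hl1, h1, h2⟩ := h.rates
    refine ⟨N, C, l ^ n, hN, hC, pow_pos hl0 n, pow_lt_one₀ hl0.le hl1 (by omega), ?_, ?_⟩
    · intro m x v hv
      rw [hG, ← Function.iterate_mul, ← pow_mul]
      exact h1 _ x v hv
    · intro m x v hv
      rw [hG', ← Function.iterate_mul, ← pow_mul]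
      exact h2 _ x v hv

theorem anosov_symm {F : Diffeomorph 𝓘(ℝ, E) 𝓘(ℝ, E) M M 1}
    {Es Eu : ∀ x : M, Submodule ℝ (TangentSpace 𝓘(ℝ, E) x)} (h : IsAnosov F Es Eu) :
    IsAnosov F.symm Eu Es where
  isCompl := fun x => (h.isCompl x).symm
  map_s := inv_inv F.contMDiff F.symm.contMDiff F.symm_apply_apply F.apply_symm_apply h.map_u
  map_u := inv_inv F.contMDiff F.symm.contMDiff F.symm_apply_apply F.apply_symm_apply h.map_s
  rates := by
    obtain ⟨N, C, l, hN, hC, hl0, hl1, h1, h2⟩ := h.rates
    exact ⟨N, C, l, hN, hC, hl0, hl1, h2, h1⟩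

end pow

section main
variable {E : Type*} [NormedAddCommGroup E] [NormedSpace ℝ E] [FiniteDimensional ℝ E]
  {M : Type*} [TopologicalSpace M] [T2Space M] [CompactSpace M] [ConnectedSpace M]
  [ChartedSpace E M] [IsManifold 𝓘(ℝ, E) ∞ M]

/-- the characters `n ↦ -n` and `n ↦ n` -/
noncomputable def chi (j : Bool) : ℤ →+ ℝ :=
  if j then (Int.castAddHom ℝ) else -(Int.castAddHom ℝ)

theorem chi_true (z : ℤ) : chi true z = z := rfl
theorem chi_false (z : ℤ) : chi false z = -z := rfl

/-- **Surfaces.** -/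
theorem surf_trans (F : Diffeomorph 𝓘(ℝ, E) 𝓘(ℝ, E) M M 1)
    (hF2 : ContMDiff 𝓘(ℝ, E) 𝓘(ℝ, E) 2 F) (hF2' : ContMDiff 𝓘(ℝ, E) 𝓘(ℝ, E) 2 F.symm)
    (Es Eu : ∀ x : M, Submodule ℝ (TangentSpace 𝓘(ℝ, E) x)) (hA : IsAnosov F Es Eu)
    (h1 : ∀ x, Module.finrank ℝ (Es x) = 1) (h1' : ∀ x, Module.finrank ℝ (Eu x) = 1) :
    TopTransitive F := by
  have key : TopTransitive (zp F 1) := by
    refine Pool.Agent.Y330.E.paired_totally0 (G := ℤ) (J := Bool) (zp F)
      (fun z => smooth_perm F hF2 hF2' z) (zp_add F) chi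
      (fun j x => if j then Eu x else Es x) (fun z j => ?_) ?_ ?_ 1 ?_
    · cases j
      · simpa using zp_inv F hA.map_s z
      · simpa using zp_inv F hA.map_u z
    · intro i j c hc hij
      refine ⟨fun x => ?_, fun k c' hc' hk => ?_⟩
      · cases i
        · simpa using h1 x
        · simpa using h1' x
      · have h2 := hk 1
        cases i <;> cases k
        · rfl
        · rw [chi_true, chi_false] at h2
          norm_num at h2
          linarith
        · rw [chi_true, chi_false] at h2
          norm_num at h2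
          linarith
        · rfl
    · intro z hz
      have hz0 : (z : ℝ) ≠ 0 := by
        have := hz true
        rwa [chi_true] at this
      have hz1 : z ≠ 0 := by exact_mod_cast hz0
      rcases lt_or_gt_of_ne hz1 with hneg | hpos
      · have e1 : negField chi (fun j x => if j then Eu x else Es x) z = Eu := by
          funext x
          unfold negField
          apply le_antisymm
          · refine iSup_le ?_
            rintro ⟨j, hj⟩
            cases j
            · rw [chi_false] at hj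
              have : (z : ℝ) < 0 := by exact_mod_cast hneg
              linarith
            · simp
          · refine le_trans ?_ (le_iSup (fun j : {j // chi j z < 0} =>
              if (j : Bool) then Eu x else Es x) ⟨true, ?_⟩)
            · simp
            · rw [chi_true]; exact_mod_cast hneg
        have e2 : posField chi (fun j x => if j then Eu x else Es x) z = Es := by
          funext x
          unfold posField
          apply le_antisymm
          · refine iSup_le ?_
            rintro ⟨j, hj⟩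
            cases j
            · simp
            · rw [chi_true] at hj
              have : (z : ℝ) < 0 := by exact_mod_cast hneg
              linarith
          · refine le_trans ?_ (le_iSup (fun j : {j // 0 < chi j z} =>
              if (j : Bool) then Eu x else Es x) ⟨false, ?_⟩)
            · simp
            · rw [chi_false]
              have : (z : ℝ) < 0 := by exact_mod_cast hneg
              linarith
        rw [e1, e2]
        obtain ⟨n, hn⟩ : ∃ n : ℕ, z = -n := ⟨z.natAbs, by omega⟩
        have hn1 : 1 ≤ n := by omega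
        refine anosov_iter (anosov_symm hA) hn1 ?_ ?_
        · rcases perm_cases F.toEquiv z with ⟨m, h3, h4⟩ | ⟨m, h3, h4⟩
          · exfalso; omega
          · obtain rfl : m = n := by omega
            exact h4
        · have h5 : ((zp F z).symm : M → M) = ((F.toEquiv ^ (-z) : Equiv.Perm M) : M → M) := by
            rw [zpow_neg]; rfl
          rw [h5]
          rcases perm_cases F.toEquiv (-z) with ⟨m, h3, h4⟩ | ⟨m, h3, h4⟩
          · obtain rfl : m = n := by omega
            exact h4
          · exfalso; omega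
      · have e1 : negField chi (fun j x => if j then Eu x else Es x) z = Es := by
          funext x
          unfold negField
          apply le_antisymm
          · refine iSup_le ?_
            rintro ⟨j, hj⟩
            cases j
            · simp
            · rw [chi_true] at hj
              have : (0 : ℝ) < z := by exact_mod_cast hpos
              linarith
          · refine le_trans ?_ (le_iSup (fun j : {j // chi j z < 0} =>
              if (j : Bool) then Eu x else Es x) ⟨false, ?_⟩)
            · simp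
            · rw [chi_false]
              have : (0 : ℝ) < z := by exact_mod_cast hpos
              linarith
        have e2 : posField chi (fun j x => if j then Eu x else Es x) z = Eu := by
          funext x
          unfold posField
          apply le_antisymm
          · refine iSup_le ?_
            rintro ⟨j, hj⟩
            cases j
            · rw [chi_false] at hj
              have : (0 : ℝ) < z := by exact_mod_cast hpos
              linarith
            · simp
          · refine le_trans ?_ (le_iSup (fun j : {j // 0 < chi j z} =>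
              if (j : Bool) then Eu x else Es x) ⟨true, ?_⟩)
            · simp
            · rw [chi_true]; exact_mod_cast hpos
        rw [e1, e2]
        obtain ⟨n, hn⟩ : ∃ n : ℕ, z = n := ⟨z.natAbs, by omega⟩
        have hn1 : 1 ≤ n := by omega
        refine anosov_iter hA hn1 ?_ ?_
        · rcases perm_cases F.toEquiv z with ⟨m, h3, h4⟩ | ⟨m, h3, h4⟩
          · obtain rfl : m = n := by omega
            exact h4
          · exfalso; omega
        · have h5 : ((zp F z).symm : M → M) = ((F.toEquiv ^ (-z) : Equiv.Perm M) : M → M) := by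
            rw [zpow_neg]; rfl
          rw [h5]
          rcases perm_cases F.toEquiv (-z) with ⟨m, h3, h4⟩ | ⟨m, h3, h4⟩
          · exfalso; omega
          · obtain rfl : m = n := by omega
            exact h4
    · intro j
      cases j
      · rw [chi_false]; norm_num
      · rw [chi_true]; norm_num
  have h2 : (zp F 1 : M → M) = F := funext (zp_one F)
  rwa [h2] at key

end main

end Pool.Agent.R189.Sf
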